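import Pool.Agent.Hhelper53.Planar.Upper
import Pool.Agent.Hhelper53.Planar.Bound

set_option autoImplicit false

/-!
# Independent sets of bounded degree in planar graphs

For every `D ≥ 18` the extremal function equals `(D - 8) / (4 D - 27) * n` up to an additive
constant.
-/

namespace Pool.Agent.Results.MP_1ec845_co.BoundedDegreeIndependent

open SimpleGraph

/-- `X` is a minor of `G`: there are pairwise disjoint branch sets, one for each vertex of `X`,
each inducing a (nonempty) connected subgraph of `G`, such that there is an edge of `G` between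
the branch sets of any two adjacent vertices of `X`. -/
def IsMinor {A V : Type} (X : SimpleGraph A) (G : SimpleGraph V) : Prop :=
  ∃ B : A → Set V, (∀ a, (G.induce (B a)).Connected) ∧ (∀ a b, a ≠ b → Disjoint (B a) (B b)) ∧
    ∀ a b, X.Adj a b → ∃ u ∈ B a, ∃ v ∈ B b, G.Adj u v

/-- Planarity, in the form of Wagner's theorem: neither `K_5` nor `K_{3,3}` is a minor. -/
def Planar {V : Type} (G : SimpleGraph V) : Prop :=
  ¬ IsMinor (⊤ : SimpleGraph (Fin 5)) G ∧ ¬ IsMinor (completeBipartiteGraph (Fin 3) (Fin 3)) G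

/-- `I` is a `D`-independent set of `G`: it is independent and all its vertices have degree at
most `D - 1` in `G`. -/
def DIndependent {V : Type} (D : ℕ) (G : SimpleGraph V) (I : Finset V) : Prop :=
  G.IsIndepSet (I : Set V) ∧ ∀ v ∈ I, (G.neighborSet v).ncard < D

/-- The largest size of a `D`-independent set of `G`. -/
noncomputable def maxD {V : Type} (D : ℕ) (G : SimpleGraph V) : ℕ :=
  sSup {k | ∃ I : Finset V, DIndependent D G I ∧ I.card = k}

/-- The minimum of `maxD D G` over all planar (and, by the four colour theorem automatically,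
four-colourable) graphs `G` on `n` vertices. -/
noncomputable def alphaD (D n : ℕ) : ℕ :=
  sInf {k | ∃ G : SimpleGraph (Fin n), Planar G ∧ G.Colorable 4 ∧ maxD D G = k}

lemma isMinor_iff {A V : Type} (X : SimpleGraph A) (G : SimpleGraph V) :
    IsMinor X G ↔ Pool.Agent.Hhelper53.Planar.HasModel X G Set.univ := by
  constructor
  · rintro ⟨B, h1, h2, h3⟩
    exact ⟨B, fun a => (Pool.Agent.Hhelper53.Planar.conn_iff G (B a)).1 (h1 a),
      fun a => Set.subset_univ _, h2, h3⟩
  · rintro ⟨B, h1, _, h2, h3⟩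
    exact ⟨B, fun a => (Pool.Agent.Hhelper53.Planar.conn_iff G (B a)).2 (h1 a), h2, h3⟩

lemma dg_eq {V : Type} [Fintype V] (G : SimpleGraph V) (v : V) :
    Pool.Agent.Hhelper53.Planar.dg G Finset.univ v = (G.neighborSet v).ncard := by
  classical
  unfold Pool.Agent.Hhelper53.Planar.dg
  rw [← Set.ncard_coe_finset]
  congr 1
  ext w
  simp

lemma dIndependent_iff {V : Type} [Fintype V] (D : ℕ) (G : SimpleGraph V) (I : Finset V) :
    DIndependent D G I ↔ Pool.Agent.Hhelper53.Planar.Ind G I ∧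
      ∀ v ∈ I, Pool.Agent.Hhelper53.Planar.dg G Finset.univ v < D := by
  unfold DIndependent
  simp only [dg_eq]
  refine and_congr_left fun _ => ?_
  constructor
  · intro h a ha b hb hab
    exact h ha hb hab.ne hab
  · intro h a ha b hb _ hab
    exact h a ha b hb hab

lemma bdd {V : Type} [Fintype V] (D : ℕ) (G : SimpleGraph V) :
    BddAbove {k | ∃ I : Finset V, DIndependent D G I ∧ I.card = k} := by
  refine ⟨Fintype.card V, ?_⟩
  rintro k ⟨I, _, rfl⟩
  exact Finset.card_le_univ I

lemma exists_maxD {V : Type} [Fintype V] (D : ℕ) (G : SimpleGraph V) :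
    ∃ I : Finset V, DIndependent D G I ∧ I.card = maxD D G := by
  have h := Nat.sSup_mem (s := {k | ∃ I : Finset V, DIndependent D G I ∧ I.card = k})
    ⟨0, ∅, ⟨by simp, by simp⟩, rfl⟩ (bdd D G)
  exact h

/-- For every `D ≥ 18` and every `n ≥ 1`,
`(D - 8) / (4 D - 27) * n - 1 / 2 ≤ alphaD D n ≤ (D - 8) / (4 D - 27) * n + 4 * D`.
For `D ≥ 19` the constant lies strictly between the two previously known bounds. -/
theorem result :
    (∀ D : ℕ, 18 ≤ D → ∀ n : ℕ, 1 ≤ n →
      ((D : ℝ) - 8) / (4 * D - 27) * n - 1 / 2 ≤ alphaD D n ∧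
      (alphaD D n : ℝ) ≤ ((D : ℝ) - 8) / (4 * D - 27) * n + 4 * D) ∧
    (∀ D : ℕ, 19 ≤ D →
      max (5 / 23) (((D : ℝ) - 6) / (4 * D - 16)) < ((D : ℝ) - 8) / (4 * D - 27) ∧
      ((D : ℝ) - 8) / (4 * D - 27) < (3 * (D : ℝ) - 22) / (12 * D - 73)) := by
  refine ⟨?_, ?_⟩
  · intro D hD n _
    have hDr : (18 : ℝ) ≤ D := by exact_mod_cast hD
    have hpos : (0 : ℝ) < 4 * D - 27 := by linarith
    have c1 : ((4 * D - 27 : ℕ) : ℝ) = 4 * (D : ℝ) - 27 := by
      rw [Nat.cast_sub (by omega)]
      push_cast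
      ring
    have c2 : ((D - 8 : ℕ) : ℝ) = (D : ℝ) - 8 := by
      rw [Nat.cast_sub (by omega)]
      push_cast
      ring
    obtain ⟨K, hK4, hK5, hK33, hKI⟩ := Pool.Agent.Hhelper53.Planar.upper_final D hD n
    have hKmem : maxD D K ∈
        {k | ∃ G : SimpleGraph (Fin n), Planar G ∧ G.Colorable 4 ∧ maxD D G = k} :=
      ⟨K, ⟨fun h => hK5 ((isMinor_iff _ _).1 h), fun h => hK33 ((isMinor_iff _ _).1 h)⟩, hK4, rfl⟩
    constructor
    · obtain ⟨G, ⟨hG5, hG33⟩, hG4, hGk⟩ := Nat.sInf_mem ⟨_, hKmem⟩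
      obtain ⟨I, hI1, hI2, hI3⟩ := Pool.Agent.Hhelper53.Planar.lower_final G hG4
        (fun h => hG5 ((isMinor_iff _ _).2 h)) (fun h => hG33 ((isMinor_iff _ _).2 h)) D (by omega)
      have h1 : I.card ≤ maxD D G :=
        le_csSup (bdd D G) ⟨I, (dIndependent_iff D G I).2 ⟨hI1, hI2⟩, rfl⟩
      have h2 : maxD D G = alphaD D n := hGk
      rw [h2] at h1
      rw [Fintype.card_fin] at hI3
      have h3 : ((D : ℝ) - 8) * n ≤ (4 * D - 27) * alphaD D n + 2 * (D - 8) := by
        have h4 : (((D - 8) * n : ℕ) : ℝ) ≤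
            (((4 * D - 27) * alphaD D n + 2 * (D - 8) : ℕ) : ℝ) := by
          have := Nat.mul_le_mul_left (4 * D - 27) h1
          exact_mod_cast (by omega : (D - 8) * n ≤ (4 * D - 27) * alphaD D n + 2 * (D - 8))
        push_cast at h4
        rw [c1, c2] at h4
        exact h4
      rw [sub_le_iff_le_add, div_mul_eq_mul_div, div_le_iff₀ hpos]
      nlinarith
    · have h1 : alphaD D n ≤ maxD D K := Nat.sInf_le hKmem
      obtain ⟨I, hI, hIc⟩ := exists_maxD D K
      obtain ⟨hI1, hI2⟩ := (dIndependent_iff D K I).1 hI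
      have h2 := hKI I hI1 hI2
      have h3 : (((4 * D - 27) * alphaD D n : ℕ) : ℝ) ≤
          (((D - 8) * n + (4 * D - 27) * (4 * D) : ℕ) : ℝ) := by
        have := Nat.mul_le_mul_left (4 * D - 27) (h1.trans hIc.ge)
        exact_mod_cast (by omega : (4 * D - 27) * alphaD D n ≤
          (D - 8) * n + (4 * D - 27) * (4 * D))
      push_cast at h3
      rw [c1, c2] at h3
      rw [div_mul_eq_mul_div, ← sub_le_iff_le_add, le_div_iff₀ hpos]
      nlinarith
  · intro D hD
    have hDr : (19 : ℝ) ≤ D := by exact_mod_cast hD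
    have hpos : (0 : ℝ) < 4 * D - 27 := by linarith
    refine ⟨max_lt ?_ ?_, ?_⟩
    · rw [div_lt_div_iff₀ (by norm_num) hpos]
      nlinarith
    · rw [div_lt_div_iff₀ (by linarith) hpos]
      nlinarith
    · rw [div_lt_div_iff₀ hpos (by linarith)]
      nlinarith

end Pool.Agent.Results.MP_1ec845_co.BoundedDegreeIndependent
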